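import Pool.Agent.Work.MP_db9399_da.Parts

/-!
# Block LBV (helper85): Chebyshev for the edges between two classes in the block model
-/

set_option autoImplicit false

namespace Pool.Agent.Work.MP_db9399_da.helper85

open Finset Classical
open Pool.Agent.Work.MP_db9399_all (nb pr)

universe u

section aux
variable {V : Type u} [Fintype V] {J : ℕ}

/-- averages of a centred coordinate function vanish -/
lemma sum_zero (a : V) (f : Fin 60 → ℝ) (hf : ∑ c, f c = 0) (g : (V → Fin 60) → ℝ)
    (hg : ∀ ω c, g (ω + Pi.single a c) = g ω) :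
    ∑ ω : V → Fin 60, f (ω a) * g ω = 0 := by
  have h1 : ∀ c : Fin 60, ∑ ω : V → Fin 60, f (ω a) * g ω =
      ∑ ω : V → Fin 60, f (ω a + c) * g ω := by
    intro c
    rw [← Equiv.sum_comp (Equiv.addRight (Pi.single a c : V → Fin 60))]
    refine Finset.sum_congr rfl fun ω _ => ?_
    simp only [Equiv.coe_addRight, Pi.add_apply, Pi.single_eq_same]
    rw [hg]
  have h2 : (60 : ℝ) * ∑ ω : V → Fin 60, f (ω a) * g ω = 0 := by
    calc (60 : ℝ) * ∑ ω : V → Fin 60, f (ω a) * g ω
        = ∑ _c : Fin 60, ∑ ω : V → Fin 60, f (ω a) * g ω := by simp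
      _ = ∑ c : Fin 60, ∑ ω : V → Fin 60, f (ω a + c) * g ω :=
          Finset.sum_congr rfl fun c _ => h1 c
      _ = ∑ ω : V → Fin 60, ∑ c : Fin 60, f (ω a + c) * g ω := Finset.sum_comm
      _ = 0 := by
        refine Finset.sum_eq_zero fun ω _ => ?_
        rw [← Finset.sum_mul]
        have : ∑ c : Fin 60, f (ω a + c) = ∑ c, f c := Equiv.sum_comp (Equiv.addLeft (ω a)) f
        rw [this, hf, zero_mul]
  linarith

/-- the labels of a vertex are equally distributed -/
lemma card_shift (r p i : ℕ) (h1 : 1 ≤ r) (h6 : r ≤ 6) (hp : p < r) (hi : i < r) :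
    (Finset.univ.filter (fun c : Fin 60 => (p + (c : ℕ)) % r = i)).card * r = 60 := by
  interval_cases r <;> interval_cases p <;> interval_cases i <;> decide

lemma sum_shift (r p i : ℕ) (h1 : 1 ≤ r) (h6 : r ≤ 6) (hp : p < r) (hi : i < r) :
    ∑ c : Fin 60, ((if (p + (c : ℕ)) % r = i then (1 : ℝ) else 0) - 1 / r) = 0 := by
  rw [Finset.sum_sub_distrib, Finset.sum_boole, Finset.sum_const, Finset.card_univ,
    Fintype.card_fin]
  have h := card_shift r p i h1 h6 hp hi
  have hr : (0 : ℝ) < r := by exact_mod_cast h1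
  have h2 : (((Finset.univ.filter (fun c : Fin 60 => (p + (c : ℕ)) % r = i)).card : ℕ) : ℝ) * r =
      60 := by
    have : ((((Finset.univ.filter (fun c : Fin 60 => (p + (c : ℕ)) % r = i)).card * r : ℕ)) : ℝ) =
      ((60 : ℕ) : ℝ) := by rw [h]
    push_cast at this
    exact this
  rw [sub_eq_zero, nsmul_eq_mul]
  field_simp
  push_cast
  linarith

/-- edge numbers as numbers of pairs -/
lemma eb_pairs (T : SimpleGraph V) (A B : Finset V) :
    eb T A B = ((univ : Finset (V × V)).filter (fun p => p.1 ∈ A ∧ p.2 ∈ B ∧ T.Adj p.1 p.2)).card := by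
  rw [Finset.card_filter, Fintype.sum_prod_type]
  unfold eb
  rw [← Finset.sum_subset (Finset.subset_univ A)]
  · refine Finset.sum_congr rfl fun v hv => ?_
    rw [← Finset.card_filter]
    congr 1
    ext w
    simp only [nb, Finset.mem_inter, Finset.mem_filter, Finset.mem_univ, true_and, hv]
    tauto
  · intro v _ hv
    simp [hv]

lemma pairs_left (T : SimpleGraph V) (B : Finset V) (D : ℝ)
    (hdeg : ∀ v, ((nb T v).card : ℝ) ≤ D) :
    (((univ : Finset (V × V)).filter (fun p => p.1 ∈ B ∧ T.Adj p.1 p.2)).card : ℝ) ≤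
      B.card * D := by
  have h := eb_pairs T B univ
  have h1 : ((univ : Finset (V × V)).filter (fun p => p.1 ∈ B ∧ p.2 ∈ (univ : Finset V) ∧
      T.Adj p.1 p.2)) = (univ : Finset (V × V)).filter (fun p => p.1 ∈ B ∧ T.Adj p.1 p.2) := by
    ext p
    simp
  rw [h1] at h
  rw [← h]
  unfold eb
  rw [Nat.cast_sum]
  calc ∑ v ∈ B, ((nb T v ∩ univ).card : ℝ) ≤ ∑ _v ∈ B, D := by
        refine Finset.sum_le_sum fun v _ => ?_
        rw [Finset.inter_univ]
        exact hdeg v
    _ = B.card * D := by rw [Finset.sum_const, nsmul_eq_mul]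

lemma pairs_right (T : SimpleGraph V) (B : Finset V) (D : ℝ)
    (hdeg : ∀ v, ((nb T v).card : ℝ) ≤ D) :
    (((univ : Finset (V × V)).filter (fun p => p.2 ∈ B ∧ T.Adj p.1 p.2)).card : ℝ) ≤
      B.card * D := by
  have h : ((univ : Finset (V × V)).filter (fun p => p.2 ∈ B ∧ T.Adj p.1 p.2)).card =
      ((univ : Finset (V × V)).filter (fun p => p.1 ∈ B ∧ T.Adj p.1 p.2)).card := by
    refine Finset.card_nbij' Prod.swap Prod.swap ?_ ?_ ?_ ?_
    · rintro ⟨a, b⟩ h
      simp only [Finset.coe_filter, Finset.mem_univ, true_and, Set.mem_ofPred_eq,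
        Prod.swap_prod_mk] at h ⊢
      exact ⟨h.1, h.2.symm⟩
    · rintro ⟨a, b⟩ h
      simp only [Finset.coe_filter, Finset.mem_univ, true_and, Set.mem_ofPred_eq,
        Prod.swap_prod_mk] at h ⊢
      exact ⟨h.1, h.2.symm⟩
    · rintro ⟨a, b⟩ _
      rfl
    · rintro ⟨a, b⟩ _
      rfl
  rw [h]
  exact pairs_left T B D hdeg

end aux

theorem stmt_LBV : Stmt_LBV.{u} := by
  intro V _ J nd r T w W blk pos Fx j j' i i' D E hr hBM hi hi' hD hdeg hE hE12 hED
  have hD0 : (0 : ℝ) < D := by linarith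
  have hE0 : (0 : ℝ) < E := lt_of_lt_of_le (by norm_num) hE12
  have hrj := hr j
  have hrj' := hr j'
  have hrR : (1 : ℝ) ≤ r j := by exact_mod_cast hrj.1
  have hrR' : (1 : ℝ) ≤ r j' := by exact_mod_cast hrj'.1
  set m : ℝ := 1 / ((r j : ℝ) * r j') with hm
  have hm0 : 0 ≤ m := by positivity
  have hm1 : m ≤ 1 := by
    rw [hm, div_le_one (by positivity)]
    nlinarith
  set P0 : Finset (V × V) := univ.filter (fun p => nd p.1 = j ∧ nd p.2 = j' ∧ T.Adj p.1 p.2)
    with hP0
  set P : Finset (V × V) := P0.filter (fun p => ¬ Fx p.1 ∧ ¬ Fx p.2 ∧ blk p.1 ≠ blk p.2) with hP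
  set L : (V → Fin 60) → V → ℕ := fun ω v => lb nd r blk pos Fx ω v with hL
  set X : (V → Fin 60) → V × V → ℝ := fun ω p => if L ω p.1 = i ∧ L ω p.2 = i' then 1 else 0
    with hX
  have hX0 : ∀ ω p, 0 ≤ X ω p := by
    intro ω p
    simp only [hX]
    split_ifs <;> norm_num
  have hX1 : ∀ ω p, X ω p ≤ 1 := by
    intro ω p
    simp only [hX]
    split_ifs <;> norm_num
  have hXm : ∀ ω p, |X ω p - m| ≤ 1 := by
    intro ω p
    rw [abs_le]
    constructor
    · linarith [hX0 ω p]
    · linarith [hX1 ω p]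
  -- the number of pairs
  have hEP : E = (P0.card : ℝ) := by
    rw [hE, eb_pairs]
    congr 2
    ext p
    simp [hP0, nodeS]
  have heb : ∀ ω, (eb T (clS nd (L ω) j i) (clS nd (L ω) j' i') : ℝ) = ∑ p ∈ P0, X ω p := by
    intro ω
    rw [eb_pairs]
    simp only [hX]
    rw [Finset.sum_boole, hP0, Finset.filter_filter]
    congr 2
    ext p
    simp only [clS, Finset.mem_filter, Finset.mem_univ, true_and]
    tauto
  -- blocks
  have hblk : ∀ b : V, ((univ.filter (fun x => blk x = b)).card) ≤ 6 := by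
    intro b
    have h1 : (univ.filter (fun x => blk x = b)).card ≤ (Finset.range 6).card := by
      refine Finset.card_le_card_of_injOn pos ?_ ?_
      · intro x _
        have := hBM.pl x
        have := (hr (nd x)).2
        simp only [Finset.coe_range, Set.mem_Iio]
        omega
      · intro x hx y hy hxy
        simp only [Finset.coe_filter, Finset.mem_univ, true_and, Set.mem_ofPred_eq] at hx hy
        exact hBM.inj x y (hx.trans hy.symm) hxy
    simpa using h1
  have hfix : ∀ k : Fin J, ((univ.filter (fun x => Fx x ∧ nd x = k)).card) ≤ 6 := by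
    intro k
    have h1 : (univ.filter (fun x => Fx x ∧ nd x = k)).card ≤ (Finset.range 6).card := by
      refine Finset.card_le_card_of_injOn pos ?_ ?_
      · intro x _
        have := hBM.pl x
        have := (hr (nd x)).2
        simp only [Finset.coe_range, Set.mem_Iio]
        omega
      · intro x hx y hy hxy
        simp only [Finset.coe_filter, Finset.mem_univ, true_and, Set.mem_ofPred_eq] at hx hy
        exact hBM.inj x y (hBM.fx1 x y hx.1 hy.1 (hx.2.trans hy.2.symm)) hxy
    simpa using h1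
  -- the pairs which are left out
  have hrest : ((P0 \ P).card : ℝ) ≤ E / 2000 := by
    have hsub : P0 \ P ⊆ ((univ : Finset (V × V)).filter
          (fun p => p.1 ∈ univ.filter (fun x => Fx x ∧ nd x = j) ∧ T.Adj p.1 p.2)) ∪
        ((univ : Finset (V × V)).filter
          (fun p => p.2 ∈ univ.filter (fun x => Fx x ∧ nd x = j') ∧ T.Adj p.1 p.2)) ∪
        ((univ : Finset (V × V)).filter
          (fun p => nd p.1 = j ∧ nd p.2 = j' ∧ blk p.1 = blk p.2 ∧ T.Adj p.1 p.2)) := by
      intro p hp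
      simp only [hP, hP0, Finset.mem_sdiff, Finset.mem_filter, Finset.mem_univ, true_and,
        Finset.mem_union] at hp ⊢
      tauto
    have h1 := pairs_left T (univ.filter (fun x => Fx x ∧ nd x = j)) D hdeg
    have h2 := pairs_right T (univ.filter (fun x => Fx x ∧ nd x = j')) D hdeg
    have h1' : (((univ.filter (fun x => Fx x ∧ nd x = j)).card : ℕ) : ℝ) * D ≤ 6 * D := by
      have := hfix j
      have h3 : (((univ.filter (fun x => Fx x ∧ nd x = j)).card : ℕ) : ℝ) ≤ 6 := by
        exact_mod_cast this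
      nlinarith
    have h2' : (((univ.filter (fun x => Fx x ∧ nd x = j')).card : ℕ) : ℝ) * D ≤ 6 * D := by
      have := hfix j'
      have h3 : (((univ.filter (fun x => Fx x ∧ nd x = j')).card : ℕ) : ℝ) ≤ 6 := by
        exact_mod_cast this
      nlinarith
    have h3 : (((univ : Finset (V × V)).filter
          (fun p => nd p.1 = j ∧ nd p.2 = j' ∧ blk p.1 = blk p.2 ∧ T.Adj p.1 p.2)).card : ℝ) ≤
        E / 10 ^ 5 + 10 ^ 12 := by
      by_cases hjj : j = j'
      · subst hjj
        rw [hE]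
        exact hBM.prs j
      · have : ((univ : Finset (V × V)).filter
          (fun p => nd p.1 = j ∧ nd p.2 = j' ∧ blk p.1 = blk p.2 ∧ T.Adj p.1 p.2)) = ∅ := by
          rw [Finset.filter_eq_empty_iff]
          rintro p _ ⟨h4, h5, h6, _⟩
          exact hjj (h4.symm.trans ((hBM.nb _ _ h6).trans h5))
        rw [this]
        simp
        positivity
    have h4 := (Finset.card_le_card hsub).trans ((Finset.card_union_le _ _).trans
      (Nat.add_le_add_right (Finset.card_union_le _ _) _))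
    have h5 : ((P0 \ P).card : ℝ) ≤ (((univ : Finset (V × V)).filter
          (fun p => p.1 ∈ univ.filter (fun x => Fx x ∧ nd x = j) ∧ T.Adj p.1 p.2)).card : ℝ) +
        (((univ : Finset (V × V)).filter
          (fun p => p.2 ∈ univ.filter (fun x => Fx x ∧ nd x = j') ∧ T.Adj p.1 p.2)).card : ℝ) +
        (((univ : Finset (V × V)).filter
          (fun p => nd p.1 = j ∧ nd p.2 = j' ∧ blk p.1 = blk p.2 ∧ T.Adj p.1 p.2)).card : ℝ) := by
      exact_mod_cast h4
    linarith
  -- the sum over the good pairs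
  set S : (V → Fin 60) → ℝ := fun ω => ∑ p ∈ P, (X ω p - m) with hS
  have hevent : ∀ ω, E / 1000 < |(eb T (clS nd (L ω) j i) (clS nd (L ω) j' i') : ℝ) -
      E / (r j * r j')| → (E / 2000) ^ 2 ≤ (S ω) ^ 2 := by
    intro ω hω
    have h1 : (eb T (clS nd (L ω) j i) (clS nd (L ω) j' i') : ℝ) - E / (r j * r j') =
        S ω + ∑ p ∈ P0 \ P, (X ω p - m) := by
      rw [heb, hS]
      simp only
      rw [add_comm, Finset.sum_sdiff (Finset.filter_subset _ _), Finset.sum_sub_distrib,
        Finset.sum_const, nsmul_eq_mul, ← hEP, hm]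
      ring
    have h2 : |∑ p ∈ P0 \ P, (X ω p - m)| ≤ E / 2000 := by
      calc |∑ p ∈ P0 \ P, (X ω p - m)| ≤ ∑ p ∈ P0 \ P, |X ω p - m| :=
            Finset.abs_sum_le_sum_abs _ _
        _ ≤ ∑ _p ∈ P0 \ P, (1 : ℝ) := Finset.sum_le_sum fun p _ => hXm ω p
        _ = ((P0 \ P).card : ℝ) := by simp
        _ ≤ E / 2000 := hrest
    rw [h1] at hω
    have h3 := abs_add_le (S ω) (∑ p ∈ P0 \ P, (X ω p - m))
    have h4 : E / 2000 ≤ |S ω| := by linarith
    rw [← sq_abs (S ω)]
    exact pow_le_pow_left₀ (by positivity) h4 2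
  -- centred form
  have hlab : ∀ ω v, ¬ Fx v → L ω v = (pos v + (ω (blk v) : ℕ)) % r (nd v) := by
    intro ω v hv
    simp only [hL, lb, if_neg hv]
  set f : V → ℕ → Fin 60 → ℝ := fun v k c =>
    (if (pos v + (c : ℕ)) % r (nd v) = k then (1 : ℝ) else 0) - 1 / r (nd v) with hf
  have hf0 : ∀ v k, k < r (nd v) → ∑ c, f v k c = 0 := by
    intro v k hk
    exact sum_shift (r (nd v)) (pos v) k (hr _).1 (hr _).2 (hBM.pl v) hk
  have hPm : ∀ p ∈ P, nd p.1 = j ∧ nd p.2 = j' ∧ T.Adj p.1 p.2 ∧ ¬ Fx p.1 ∧ ¬ Fx p.2 ∧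
      blk p.1 ≠ blk p.2 := by
    intro p hp
    simp only [hP, hP0, Finset.mem_filter, Finset.mem_univ, true_and] at hp
    tauto
  have hcent : ∀ p ∈ P, ∀ ω, X ω p - m = f p.1 i (ω (blk p.1)) * (f p.2 i' (ω (blk p.2)) +
      1 / r j') + f p.2 i' (ω (blk p.2)) * (1 / r j) := by
    intro p hp ω
    obtain ⟨h1, h2, _, h4, h5, _⟩ := hPm p hp
    simp only [hX, hf, hlab ω p.1 h4, hlab ω p.2 h5, h1, h2, hm]
    by_cases ha : (pos p.1 + (ω (blk p.1) : ℕ)) % r j = i <;>
      by_cases hb : (pos p.2 + (ω (blk p.2) : ℕ)) % r j' = i'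
    · simp only [ha, hb, and_self, if_true]
      field_simp
      ring
    · simp only [ha, hb, and_false, if_true, if_false]
      field_simp
      ring
    · simp only [ha, hb, false_and, if_true, if_false]
      field_simp
      ring
    · simp only [ha, hb, and_self, if_false]
      field_simp
      ring
  have hinv : ∀ q ∈ P, ∀ a : V, a ≠ blk q.1 → a ≠ blk q.2 → ∀ (ω : V → Fin 60) (c : Fin 60),
      X (ω + Pi.single a c) q - m = X ω q - m := by
    intro q hq a h1 h2 ω c
    rw [hcent q hq, hcent q hq]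
    have e1 : (ω + Pi.single a c : V → Fin 60) (blk q.1) = ω (blk q.1) := by
      rw [Pi.add_apply, Pi.single_eq_of_ne (Ne.symm h1), add_zero]
    have e2 : (ω + Pi.single a c : V → Fin 60) (blk q.2) = ω (blk q.2) := by
      rw [Pi.add_apply, Pi.single_eq_of_ne (Ne.symm h2), add_zero]
    rw [e1, e2]
  have hcross : ∀ p ∈ P, ∀ q ∈ P, blk p.1 ≠ blk q.1 → blk p.1 ≠ blk q.2 → blk p.2 ≠ blk q.1 →
      blk p.2 ≠ blk q.2 → ∑ ω : V → Fin 60, (X ω p - m) * (X ω q - m) = 0 := by
    intro p hp q hq h1 h2 h3 h4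
    obtain ⟨g1, g2, _, _, _, g6⟩ := hPm p hp
    have e1 := sum_zero (blk p.1) (f p.1 i) (hf0 _ _ (by rw [g1]; exact hi))
      (fun ω => (f p.2 i' (ω (blk p.2)) + 1 / r j') * (X ω q - m)) (by
        intro ω c
        rw [hinv q hq _ h1 h2]
        have : (ω + Pi.single (blk p.1) c : V → Fin 60) (blk p.2) = ω (blk p.2) := by
          rw [Pi.add_apply, Pi.single_eq_of_ne (Ne.symm g6), add_zero]
        rw [this])
    have e2 := sum_zero (blk p.2) (f p.2 i') (hf0 _ _ (by rw [g2]; exact hi'))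
      (fun ω => (1 / (r j : ℝ)) * (X ω q - m)) (by
        intro ω c
        rw [hinv q hq _ h3 h4])
    have e3 : ∑ ω : V → Fin 60, (X ω p - m) * (X ω q - m) =
        ∑ ω : V → Fin 60, f p.1 i (ω (blk p.1)) * ((f p.2 i' (ω (blk p.2)) + 1 / r j') *
          (X ω q - m)) + ∑ ω : V → Fin 60, f p.2 i' (ω (blk p.2)) * ((1 / (r j : ℝ)) *
          (X ω q - m)) := by
      rw [← Finset.sum_add_distrib]
      refine Finset.sum_congr rfl fun ω _ => ?_
      rw [hcent p hp ω]
      ring
    rw [e3, e1, e2, add_zero]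
  -- second moment
  set N : ℝ := (Fintype.card (V → Fin 60) : ℝ) with hN
  have hN0 : 0 < N := by
    rw [hN]
    exact_mod_cast Fintype.card_pos
  have hshare : ∀ p ∈ P, ((P.filter (fun q => blk p.1 = blk q.1 ∨ blk p.1 = blk q.2 ∨
      blk p.2 = blk q.1 ∨ blk p.2 = blk q.2)).card : ℝ) ≤ 24 * D := by
    intro p hp
    set B : Finset V := univ.filter (fun x => blk x = blk p.1) ∪
      univ.filter (fun x => blk x = blk p.2) with hB
    have hBc : ((B.card : ℕ) : ℝ) ≤ 12 := by
      have h1 := Finset.card_union_le (univ.filter (fun x => blk x = blk p.1))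
        (univ.filter (fun x => blk x = blk p.2))
      have h2 := hblk (blk p.1)
      have h3 := hblk (blk p.2)
      have : B.card ≤ 12 := by
        rw [hB]
        omega
      exact_mod_cast this
    have hsub : P.filter (fun q => blk p.1 = blk q.1 ∨ blk p.1 = blk q.2 ∨
        blk p.2 = blk q.1 ∨ blk p.2 = blk q.2) ⊆
        ((univ : Finset (V × V)).filter (fun q => q.1 ∈ B ∧ T.Adj q.1 q.2)) ∪
        ((univ : Finset (V × V)).filter (fun q => q.2 ∈ B ∧ T.Adj q.1 q.2)) := by
      intro q hq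
      rw [Finset.mem_filter] at hq
      obtain ⟨hqP, hq⟩ := hq
      obtain ⟨_, _, h3, _⟩ := hPm q hqP
      simp only [Finset.mem_union, Finset.mem_filter, Finset.mem_univ, true_and, hB]
      rcases hq with h | h | h | h
      · exact Or.inl ⟨Or.inl h.symm, h3⟩
      · exact Or.inr ⟨Or.inl h.symm, h3⟩
      · exact Or.inl ⟨Or.inr h.symm, h3⟩
      · exact Or.inr ⟨Or.inr h.symm, h3⟩
    have h1 := pairs_left T B D hdeg
    have h2 := pairs_right T B D hdeg
    have h3 := (Finset.card_le_card hsub).trans (Finset.card_union_le _ _)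
    have h4 : ((P.filter (fun q => blk p.1 = blk q.1 ∨ blk p.1 = blk q.2 ∨
        blk p.2 = blk q.1 ∨ blk p.2 = blk q.2)).card : ℝ) ≤
        (((univ : Finset (V × V)).filter (fun q => q.1 ∈ B ∧ T.Adj q.1 q.2)).card : ℝ) +
        (((univ : Finset (V × V)).filter (fun q => q.2 ∈ B ∧ T.Adj q.1 q.2)).card : ℝ) := by
      exact_mod_cast h3
    have h5 : (B.card : ℝ) * D ≤ 12 * D := by nlinarith
    linarith
  have hsecond : ∑ ω : V → Fin 60, (S ω) ^ 2 ≤ 24 * D * E * N := by
    have e1 : ∑ ω : V → Fin 60, (S ω) ^ 2 =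
        ∑ p ∈ P, ∑ q ∈ P, ∑ ω : V → Fin 60, (X ω p - m) * (X ω q - m) := by
      have : ∀ ω, (S ω) ^ 2 = ∑ p ∈ P, ∑ q ∈ P, (X ω p - m) * (X ω q - m) := by
        intro ω
        rw [sq, hS]
        simp only
        rw [Finset.sum_mul_sum]
      rw [Finset.sum_congr rfl (fun ω _ => this ω), Finset.sum_comm]
      refine Finset.sum_congr rfl fun p _ => ?_
      rw [Finset.sum_comm]
    rw [e1]
    have e2 : ∀ p ∈ P, ∑ q ∈ P, ∑ ω : V → Fin 60, (X ω p - m) * (X ω q - m) ≤ 24 * D * N := by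
      intro p hp
      have e3 : ∀ q ∈ P, ∑ ω : V → Fin 60, (X ω p - m) * (X ω q - m) ≤
          (if (blk p.1 = blk q.1 ∨ blk p.1 = blk q.2 ∨ blk p.2 = blk q.1 ∨ blk p.2 = blk q.2)
            then (1 : ℝ) else 0) * N := by
        intro q hq
        split_ifs with hc
        · rw [one_mul, hN, ← Finset.card_univ, ← nsmul_one, ← Finset.sum_const]
          refine Finset.sum_le_sum fun ω _ => ?_
          have g1 := hXm ω p
          have g2 := hXm ω q
          calc (X ω p - m) * (X ω q - m) ≤ |(X ω p - m) * (X ω q - m)| := le_abs_self _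
            _ = |X ω p - m| * |X ω q - m| := abs_mul _ _
            _ ≤ 1 * 1 := mul_le_mul g1 g2 (abs_nonneg _) (by norm_num)
            _ = 1 := by norm_num
        · push Not at hc
          rw [hcross p hp q hq hc.1 hc.2.1 hc.2.2.1 hc.2.2.2, zero_mul]
      calc ∑ q ∈ P, ∑ ω : V → Fin 60, (X ω p - m) * (X ω q - m)
          ≤ ∑ q ∈ P, (if (blk p.1 = blk q.1 ∨ blk p.1 = blk q.2 ∨ blk p.2 = blk q.1 ∨
              blk p.2 = blk q.2) then (1 : ℝ) else 0) * N := Finset.sum_le_sum e3
        _ = ((P.filter (fun q => blk p.1 = blk q.1 ∨ blk p.1 = blk q.2 ∨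
              blk p.2 = blk q.1 ∨ blk p.2 = blk q.2)).card : ℝ) * N := by
            rw [← Finset.sum_mul, Finset.sum_boole]
        _ ≤ 24 * D * N := mul_le_mul_of_nonneg_right (hshare p hp) hN0.le
    calc ∑ p ∈ P, ∑ q ∈ P, ∑ ω : V → Fin 60, (X ω p - m) * (X ω q - m)
        ≤ ∑ _p ∈ P, 24 * D * N := Finset.sum_le_sum e2
      _ = (P.card : ℝ) * (24 * D * N) := by rw [Finset.sum_const, nsmul_eq_mul]
      _ ≤ E * (24 * D * N) := by
          apply mul_le_mul_of_nonneg_right _ (by positivity)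
          rw [hEP]
          exact_mod_cast Finset.card_le_card (Finset.filter_subset _ _)
      _ = 24 * D * E * N := by ring
  -- conclusion
  have hmarkov : ((univ.filter (fun ω : V → Fin 60 => E / 1000 <
      |(eb T (clS nd (L ω) j i) (clS nd (L ω) j' i') : ℝ) - E / (r j * r j')|)).card : ℝ) *
      (E / 2000) ^ 2 ≤ 24 * D * E * N := by
    calc ((univ.filter (fun ω : V → Fin 60 => E / 1000 <
          |(eb T (clS nd (L ω) j i) (clS nd (L ω) j' i') : ℝ) - E / (r j * r j')|)).card : ℝ) *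
          (E / 2000) ^ 2 = ∑ _ω ∈ univ.filter (fun ω : V → Fin 60 => E / 1000 <
          |(eb T (clS nd (L ω) j i) (clS nd (L ω) j' i') : ℝ) - E / (r j * r j')|),
            (E / 2000) ^ 2 := by rw [Finset.sum_const, nsmul_eq_mul]
      _ ≤ ∑ ω ∈ univ.filter (fun ω : V → Fin 60 => E / 1000 <
          |(eb T (clS nd (L ω) j i) (clS nd (L ω) j' i') : ℝ) - E / (r j * r j')|),
            (S ω) ^ 2 := Finset.sum_le_sum fun ω hω => hevent ω (Finset.mem_filter.mp hω).2
      _ ≤ ∑ ω : V → Fin 60, (S ω) ^ 2 :=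
          Finset.sum_le_sum_of_subset_of_nonneg (Finset.filter_subset _ _)
            (fun ω _ _ => sq_nonneg _)
      _ ≤ 24 * D * E * N := hsecond
  unfold pr
  rw [div_le_div_iff₀ hN0 hE0]
  have h1 : ((univ.filter (fun ω : V → Fin 60 => E / 1000 <
      |(eb T (clS nd (L ω) j i) (clS nd (L ω) j' i') : ℝ) - E / (r j * r j')|)).card : ℝ) * E ≤
      96000000 * D * N := by
    have h2 : 0 < E := hE0
    have h3 : ((univ.filter (fun ω : V → Fin 60 => E / 1000 <
      |(eb T (clS nd (L ω) j i) (clS nd (L ω) j' i') : ℝ) - E / (r j * r j')|)).card : ℝ) * E * E ≤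
      96000000 * D * N * E := by nlinarith
    exact le_of_mul_le_mul_right h3 h2
  calc _ ≤ 96000000 * D * N := h1
    _ ≤ 10 ^ 12 * D * N := by
      have : 0 < D * N := by positivity
      nlinarith

end Pool.Agent.Work.MP_db9399_da.helper85
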