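import Pool.Agent.Work.MP_db9399_da.Pre2

/-! # DENSE-ALL phase 2, block STPB (helper85): an exchange with uncounted colours -/

set_option autoImplicit false

namespace Pool.Agent.Work.MP_db9399_da.helper85

open Finset Classical
open Pool.Agent.Work.MP_db9399_all (nb)
open Pool.Agent.Work.MP_db9399_lt (us)
open Pool.Agent.Work.MP_db9399_da.helper82 (EC StepR alc Fs)

universe u

/-- `need` depends only on the places where the colour is used -/
theorem need_congr {V : Type u} [Fintype V] (F F' : V → Finset ℕ) (sd : V → Bool) (β : Bool)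
    (b : ℕ) (h : ∀ v, b ∈ F' v ↔ b ∈ F v) : need F' sd β b = need F sd β b := by
  have hus : us F' b = us F b := by
    unfold us
    apply filter_congr
    intro v _
    exact h v
  unfold need
  rw [hus]

theorem stmt_STPB : Stmt_STPB.{u} := by
  intro C g ρ K π κ ε ε2 σ τ ζ θ M k k2 K5 L V _ G d P A X Ss t0 c Sp hC Bd s t U hS
    z v x b b3 hzW hzV hGzv hGzx hvx hvV hvH hxV hxH htv htx hb hb3 hb3v hbx halv halx hne
  have hS0 : ∀ y ∈ X.S0, y ∈ P.V0 := fun y hy => (hC.sup y hy).1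
  have hvS : v ∉ X.S0 := fun h => hvV (hS0 v h)
  have hxS : x ∉ X.S0 := fun h => hxV (hS0 x h)
  have hzv' : z ≠ v := hGzv.ne
  have hzx' : z ≠ x := hGzx.ne
  have hHzv : ¬ X.H.Adj z v := by
    intro h
    rcases hC.hp.HS v z h.symm with h1 | h1
    · exact hvH h1
    · exact hvS h1
  have hHzx : ¬ X.H.Adj z x := by
    intro h
    rcases hC.hp.HS x z h.symm with h1 | h1
    · exact hxH h1
    · exact hxS h1
  have hTzv : (thin2 G X P).Adj z v := ⟨hGzv, fun h => h.1.2.1 hzV⟩
  have hTzx : (thin2 G X P).Adj z x := ⟨hGzx, fun h => h.1.2.1 hzV⟩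
  obtain ⟨t', r⟩ := helper82.step hS.ec z v x b b3 b hTzv hTzx hvx htv htx hb3v hbx (Or.inl rfl)
  have hblt : b < d + 2 := by rw [← htv]; exact hS.lt z v hTzv hHzv
  have hb3lt : b3 < d + 2 := by rw [← htx]; exact hS.lt z x hTzx hHzx
  have hbz : b ∈ Fc2 G X P t z := by
    change b ∈ Fs (thin2 G X P) t z
    rw [helper82.mem_Fs]
    exact ⟨v, hTzv, htv⟩
  -- the colours at the vertices
  have hFz : Fc2 G X P t' z = Fc2 G X P t z := by
    change Fs (thin2 G X P) t' z = Fs (thin2 G X P) t z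
    rw [r.Fz]
    exact insert_erase hbz
  have hFV0 : ∀ y ∈ P.V0, Fc2 G X P t' y = Fc2 G X P t y := by
    intro y hy
    by_cases hyz : y = z
    · rw [hyz]; exact hFz
    · exact r.Fo y hyz (fun h => hvV (h ▸ hy)) (fun h => hxV (h ▸ hy))
  have hFv : Fc2 G X P t' v = insert b3 ((Fc2 G X P t v).erase b) := r.Fv
  have hFx : Fc2 G X P t' x = insert b ((Fc2 G X P t x).erase b3) := r.Fx
  have hFo : ∀ y, y ∉ P.V0 → y ≠ v → y ≠ x → Fc2 G X P t' y = Fc2 G X P t y :=
    fun y hy h1 h2 => r.Fo y (fun h => hy (h ▸ hzV)) h1 h2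
  have hkey : ∀ e, e ≠ b → e ≠ b3 → ∀ y, (e ∈ Fc2 G X P t' y ↔ e ∈ Fc2 G X P t y) := by
    intro e he he3 y
    by_cases hyV : y ∈ P.V0
    · rw [hFV0 y hyV]
    · by_cases hyv : y = v
      · rw [hyv, hFv, mem_insert, mem_erase]
        tauto
      · by_cases hyx : y = x
        · rw [hyx, hFx, mem_insert, mem_erase]
          tauto
        · rw [hFo y hyV hyv hyx]
  -- the two pairs
  have hpair : ∀ p q, (t' p q = t p q) ∨ (((p = z ∧ q = v) ∨ (p = v ∧ q = z)) ∧ t' p q = b3) ∨
      (((p = z ∧ q = x) ∨ (p = x ∧ q = z)) ∧ t' p q = b) := by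
    intro p q
    by_cases h1 : (p = z ∧ q = v) ∨ (p = v ∧ q = z)
    · right; left
      refine ⟨h1, ?_⟩
      rcases h1 with ⟨rfl, rfl⟩ | ⟨rfl, rfl⟩
      · exact r.zv
      · rw [r.ec.sym]; exact r.zv
    · by_cases h2 : (p = z ∧ q = x) ∨ (p = x ∧ q = z)
      · right; right
        refine ⟨h2, ?_⟩
        rcases h2 with ⟨rfl, rfl⟩ | ⟨rfl, rfl⟩
        · exact r.zx
        · rw [r.ec.sym]; exact r.zx
      · left
        exact r.old p q h1 h2
  have hHpair : ∀ p q, X.H.Adj p q → t' p q = t p q := by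
    intro p q hH
    apply r.old
    · rintro (⟨rfl, rfl⟩ | ⟨rfl, rfl⟩)
      · exact hHzv hH
      · exact hHzv hH.symm
    · rintro (⟨rfl, rfl⟩ | ⟨rfl, rfl⟩)
      · exact hHzx hH
      · exact hHzx hH.symm
  simp only [mem_union, not_or] at hb hb3
  refine ⟨t', r, ?_⟩
  refine ⟨r.ec, ?_, ?_, ?_, hS.UP, ?_, ?_, ?_, ?_, ?_, ?_, ?_, ?_, ?_, ?_, ?_, ?_, ?_⟩
  · -- dm
    intro p q hH
    rw [hHpair p q hH]
    exact hS.dm p q hH
  · -- lt
    intro p q hT hH
    rcases hpair p q with h | ⟨_, h⟩ | ⟨_, h⟩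
    · rw [h]; exact hS.lt p q hT hH
    · rw [h]; exact hb3lt
    · rw [h]; exact hblt
  · -- al
    intro y hyV e he hed
    by_cases hyv : y = v
    · rw [hyv, hFv, mem_insert, mem_erase] at he
      rcases he with h | ⟨_, h⟩
      · rw [hyv, h]; exact halv
      · rw [hyv]; exact hS.al v hvV e h hed
    · by_cases hyx : y = x
      · rw [hyx, hFx, mem_insert, mem_erase] at he
        rcases he with h | ⟨_, h⟩
        · rw [hyx, h]; exact halx
        · rw [hyx]; exact hS.al x hxV e h hed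
      · rw [hFo y hyV hyv hyx] at he
        exact hS.al y hyV e he hed
  · -- Ud
    rw [disjoint_left]
    intro e he
    have h1 := (disjoint_left.1 hS.Ud) he
    simp only [mem_union, mem_insert, not_or] at h1 ⊢
    refine ⟨h1.1, ?_, ?_, h1.2⟩
    · intro h; rw [h] at he; exact hb.2 he
    · intro h; rw [h] at he; exact hb3.2 he
  · -- Uc
    have := hS.Uc
    omega
  · -- B0
    intro e he
    exact mem_insert_of_mem (mem_insert_of_mem (hS.B0 he))
  · -- Bp
    rw [disjoint_left]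
    intro e he
    rw [mem_insert, mem_insert] at he
    rcases he with h | h | h
    · rw [h]; exact hb.1.2
    · rw [h]; exact hb3.1.2
    · exact (disjoint_left.1 hS.Bp) h
  · -- B2
    rw [mem_insert, mem_insert]
    rintro (h | h | h)
    · omega
    · omega
    · exact hS.B2 h
  · -- ch
    intro p q hT hH hne'
    rcases hpair p q with h | ⟨h, _⟩ | ⟨h, _⟩
    · rw [h] at hne'
      exact hS.ch p q hT hH hne'
    · rcases h with ⟨rfl, rfl⟩ | ⟨rfl, rfl⟩
      · exact Or.inl ⟨hzW, hzV, hvV, hvH⟩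
      · exact Or.inr ⟨hzW, hzV, hvV, hvH⟩
    · rcases h with ⟨rfl, rfl⟩ | ⟨rfl, rfl⟩
      · exact Or.inl ⟨hzW, hzV, hxV, hxH⟩
      · exact Or.inr ⟨hzW, hzV, hxV, hxH⟩
  · -- cn
    have hsub : ((univ : Finset (V × V)).filter (fun p => (thin2 G X P).Adj p.1 p.2 ∧
        ¬ X.H.Adj p.1 p.2 ∧ t' p.1 p.2 ≠ t0 p.1 p.2)) ⊆
        ((univ : Finset (V × V)).filter (fun p => (thin2 G X P).Adj p.1 p.2 ∧
          ¬ X.H.Adj p.1 p.2 ∧ t p.1 p.2 ≠ t0 p.1 p.2)) ∪ {(z, v), (v, z), (z, x), (x, z)} := by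
      rintro ⟨p, q⟩ hpq
      rw [mem_filter] at hpq
      obtain ⟨_, h1, h2, h3⟩ := hpq
      rw [mem_union]
      rcases hpair p q with h | ⟨h, _⟩ | ⟨h, _⟩
      · left
        rw [mem_filter]
        refine ⟨mem_univ _, h1, h2, ?_⟩
        change t p q ≠ t0 p q
        change t' p q ≠ t0 p q at h3
        rw [← h]; exact h3
      · right
        rcases h with ⟨rfl, rfl⟩ | ⟨rfl, rfl⟩ <;> simp
      · right
        rcases h with ⟨rfl, rfl⟩ | ⟨rfl, rfl⟩ <;> simp
    have h1 := (card_le_card hsub).trans (card_union_le _ _)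
    have h2 : ({(z, v), (v, z), (z, x), (x, z)} : Finset (V × V)).card ≤ 4 := card_le_four
    have h3 := hS.cn
    omega
  · -- tc
    intro e hed heS heB heU y hyV
    rw [mem_insert, mem_insert, not_or, not_or] at heB
    rw [hkey e heB.1 heB.2.1 y]
    exact hS.tc e hed heS heB.2.2 heU y hyV
  · -- E
    intro n hn β
    have h := hS.E n hn β
    unfold EXI at h ⊢
    have h1 : ∀ e ∈ Bkn X P ζ d Ss n β,
        need (fun y : Ts P n => Fc2 G X P t' y.1) (sdn P n) β e =
          need (fun y : Ts P n => Fc2 G X P t y.1) (sdn P n) β e := by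
      intro e he
      have heS : e ∈ Ss := by
        unfold Bkn at he
        exact (mem_filter.1 he).1
      apply need_congr
      intro y
      apply hkey e
      · intro h'; rw [h'] at heS; exact hb.1.1 heS
      · intro h'; rw [h'] at heS; exact hb3.1.1 heS
    have h2 : ∀ e ∈ U,
        need (fun y : Ts P n => Fc2 G X P t' y.1) (sdn P n) (!β) e =
          need (fun y : Ts P n => Fc2 G X P t y.1) (sdn P n) (!β) e := by
      intro e he
      apply need_congr
      intro y
      apply hkey e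
      · intro h'; rw [h'] at he; exact hb.2 he
      · intro h'; rw [h'] at he; exact hb3.2 he
    rw [sum_congr rfl h1, sum_congr rfl h2]
    exact h
  · -- br
    intro y hy w hGw hHw hw
    have hyv : y ≠ v := fun h => hvS (h ▸ hy)
    have hyx : y ≠ x := fun h => hxS (h ▸ hy)
    rcases hpair y w with h | ⟨h, h'⟩ | ⟨h, h'⟩
    · rw [h] at hw ⊢
      exact hS.br y hy w hGw hHw hw
    · exfalso
      rcases h with ⟨rfl, rfl⟩ | ⟨rfl, rfl⟩
      · rw [h'] at hw
        exact (hne hy).1 hw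
      · exact hyv rfl
    · exfalso
      rcases h with ⟨rfl, rfl⟩ | ⟨rfl, rfl⟩
      · rw [h'] at hw
        exact (hne hy).2 hw
      · exact hyx rfl
  · -- own
    intro y hyV hyH
    rw [hFV0 y hyV]
    exact hS.own y hyV hyH
  · -- own2
    intro y hyH hyV
    rw [hFV0 y hyV]
    exact hS.own2 y hyH hyV
  · -- hol
    intro y hyW hyV w hH
    rw [hFV0 y hyV]
    exact hS.hol y hyW hyV w hH

end Pool.Agent.Work.MP_db9399_da.helper85
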